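import Mathlib
import Pool.Agent.H210_S.Both

set_option autoImplicit false

/-!
# MP_81c801_nt: ratios of shifted primes, both forms at once

A positive rational is called good if it has infinitely many representations as `(p+1)/(q+1)` and
infinitely many representations as `(p-1)/(q-1)`, i.e. if it satisfies the assertion of Q1.

In every large finite set of positive rationals at least a proportion `1/16 - ε` of the ordered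
pairs `(x, y)`, `x ≠ y`, have a good ratio `x / y`.
-/

namespace Pool.Agent.Results.MP_81c801_nt.BothForms

open Finset

/-- `r` has infinitely many representations in both forms -/
def Good (r : ℚ) : Prop :=
  {w : ℕ × ℕ | w.1.Prime ∧ w.2.Prime ∧ r = ((w.1 : ℚ) + 1) / ((w.2 : ℚ) + 1)}.Infinite ∧
  {w : ℕ × ℕ | w.1.Prime ∧ w.2.Prime ∧ r = ((w.1 : ℚ) - 1) / ((w.2 : ℚ) - 1)}.Infinite

theorem good_iff (x y : ℚ) : Pool.Agent.H210S.Bo x y ↔ Good (x / y) := by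
  unfold Pool.Agent.H210S.Bo Pool.Agent.H210S.Rp Good
  have e1 : {w : ℕ × ℕ | w.1.Prime ∧ w.2.Prime ∧ ((w.1 : ℚ) + (1 : ℤ)) / ((w.2 : ℚ) + (1 : ℤ)) = x / y} =
      {w : ℕ × ℕ | w.1.Prime ∧ w.2.Prime ∧ x / y = ((w.1 : ℚ) + 1) / ((w.2 : ℚ) + 1)} := by
    ext w
    simp only [Set.mem_ofPred_eq, Int.cast_one]
    exact ⟨fun h => ⟨h.1, h.2.1, h.2.2.symm⟩, fun h => ⟨h.1, h.2.1, h.2.2.symm⟩⟩
  have e2 : {w : ℕ × ℕ | w.1.Prime ∧ w.2.Prime ∧ ((w.1 : ℚ) + (-1 : ℤ)) / ((w.2 : ℚ) + (-1 : ℤ)) = x / y} =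
      {w : ℕ × ℕ | w.1.Prime ∧ w.2.Prime ∧ x / y = ((w.1 : ℚ) - 1) / ((w.2 : ℚ) - 1)} := by
    ext w
    simp only [Set.mem_ofPred_eq, Int.cast_neg, Int.cast_one, ← sub_eq_add_neg]
    exact ⟨fun h => ⟨h.1, h.2.1, h.2.2.symm⟩, fun h => ⟨h.1, h.2.1, h.2.2.symm⟩⟩
  rw [e1, e2]

theorem part1 (ε : ℝ) (hε : 0 < ε) : ∃ N : ℕ, ∀ S : Finset ℚ, (∀ x ∈ S, 0 < x) → N ≤ S.card →
    (1 / 16 - ε) * (S.card : ℝ) ^ 2 ≤
      ({z : ℚ × ℚ | z.1 ∈ S ∧ z.2 ∈ S ∧ z.1 ≠ z.2 ∧ Good (z.1 / z.2)}.ncard : ℝ) := by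
  classical
  obtain ⟨N, hN⟩ := Pool.Agent.H210S.sixteenth ε hε
  refine ⟨N, fun S hS hcard => (hN S hS hcard).trans (le_of_eq ?_)⟩
  rw [← Set.ncard_coe_finset]
  congr 2
  ext z
  simp only [coe_filter, mem_product, Set.mem_ofPred_eq, good_iff]
  tauto

theorem result :
    ∀ ε : ℝ, 0 < ε → ∃ N : ℕ, ∀ S : Finset ℚ, (∀ x ∈ S, 0 < x) → N ≤ S.card →
      (1 / 16 - ε) * (S.card : ℝ) ^ 2 ≤
        ({z : ℚ × ℚ | z.1 ∈ S ∧ z.2 ∈ S ∧ z.1 ≠ z.2 ∧ Good (z.1 / z.2)}.ncard : ℝ) :=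
  part1

end Pool.Agent.Results.MP_81c801_nt.BothForms
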